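import Pool.Agent.V11237.LP.IntPair

set_option autoImplicit false

/-!
# Primes `q` with `q ^ 2 - 2` almost prime: their number and the law after them

For every interval `(u, u + Y]` with `u + Y ≤ X`, `Y ≥ δ X`, `X ≥ N ^ θ`, the number of the PRIMES `q` in
it for which `q ^ 2 - 2` has no prime factor `≤ N ^ (1 / r)` is `(Y / log X) V / U` up to a factor
`1 ± ε`; and over these primes the number of the `m` in `(q, q + T]` for which `m` and `m ^ 2 - 2` have
no prime factor `≤ N ^ (1 / r)` is a Poisson variable of mean `T V`.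
-/

namespace Pool.Agent.Results.MP_04ff0f_nt.AlmostPrimeSquaresMinusTwo

open Polynomial Finset Filter
open Pool.Agent.V11237.LP Pool.Agent.V11237.LP.IntPair

/-- The values `m ^ 2 - 2`. -/
def f (m : ℕ) : ℤ := (m : ℤ) ^ 2 - 2

/-- **Primes `q` with `q ^ 2 - 2` almost prime.** -/
theorem result (θ δ : ℝ) (hθ : 0 < θ) (hδ : 0 < δ) (hδ1 : δ ≤ 1) (x₀ ε : ℝ) (hε : 0 < ε)
    (hε1 : ε ≤ 1) :
    ∃ r₀ : ℕ, 2 ≤ r₀ ∧ ∀ r : ℕ, r₀ ≤ r → ∃ N₀ : ℕ, ∀ N : ℕ, N₀ ≤ N →
      (∀ m : ℕ, m ≤ N → Good f N r m → (f m).natAbs.primeFactorsList.length ≤ 4 * r) ∧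
      0 < V f N r ∧
      ∀ X : ℕ, (N : ℝ) ^ θ ≤ X → ∀ u Y : ℕ, δ * X ≤ Y → u + Y ≤ X →
        |((P f N r u Y).card : ℝ) * Real.log X - Y * (V f N r / U N r)| ≤
          ε * (Y * (V f N r / U N r)) ∧
        ∀ T : ℕ, T * V f N r ≤ x₀ → ∀ S : Finset ℕ,
        |(((P f N r u Y).filter (fun q => Next f N r T q ∈ S)).card : ℝ) -
          (P f N r u Y).card *
            ∑ j ∈ S, Real.exp (-(T * V f N r)) * (T * V f N r) ^ j / j.factorial| ≤
          ε * (P f N r u Y).card := by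
  obtain ⟨r0, hr0, h0⟩ := law 2 1 (by norm_num) le_rfl θ δ hθ hδ hδ1 x₀ ε hε hε1
  refine ⟨r0, hr0, ?_⟩
  intro r hr
  obtain ⟨N0, hN0⟩ := h0 r hr
  refine ⟨max N0 2, ?_⟩
  intro N hN
  have hN2 : 2 ≤ N := (le_max_right _ _).trans hN
  have hNz : (2 : ℤ) ≤ N := by exact_mod_cast hN2
  have hA := adm_quad 1 0 (-2) one_ne_zero ?_ ?_ ((N : ℤ) ^ 1) ?_ ?_ ?_ ?_
  · have key := hN0 N ((le_max_left _ _).trans hN) f
      (Pool.Agent.TH464.PW.quad 1 0 (-2)) (fun m => by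
      rw [Pool.Agent.TH464.PW.quad_eval]
      unfold f
      ring) (by
      have e3 : (((N : ℤ) ^ 1 : ℤ) : ℝ) = (N : ℝ) ^ 1 := by push_cast; rfl
      rw [e3] at hA
      exact hA)
    obtain ⟨k1, k2, k3⟩ := key
    exact ⟨fun m hm hg => (k1 m hm hg).trans (le_of_eq (by ring)), k2, k3⟩
  · rintro p hp ⟨h1, _, _⟩
    have := Int.le_of_dvd one_pos h1
    have := hp.two_le
    omega
  · rintro ⟨s, hs⟩
    norm_num at hs
    have h1 : s * s = 8 := hs.symm
    have h2 : s ≤ 2 := by nlinarith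
    have h3 : -2 ≤ s := by nlinarith
    interval_cases s <;> omega
  · rw [pow_one]
    norm_num
    omega
  · rw [pow_one]
    norm_num
  · rw [pow_one]
    norm_num
    omega
  · intro p hp
    refine ⟨1, ?_, ?_⟩
    · intro h
      exact hp.one_lt.ne' (Nat.dvd_one.1 h)
    · intro h
      norm_num at h
      have := Int.le_of_dvd one_pos h
      have := hp.two_le
      omega

end Pool.Agent.Results.MP_04ff0f_nt.AlmostPrimeSquaresMinusTwo
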