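import Pool.Agent.Helper29.BE.Cor

/-!
# Representations `n = k + m` and triples of shifts, for every large `n`

The problem asks, for every `n > 1`, for a representation `n = k + m` such that the numbers
`p_k² - 2`, `p_m² - 2` and `p_{p_m}² - 2` are prime. Here the three shifts are other even numbers
`h_0, h_1, h_2 ≤ H`: for EVERY large `n`, and all `H` from `n ^ 136` up to about `exp (n ^ (1/3))`, at
least `c H³ / (log log n)³` of the triples of even numbers `h_i ≤ H` have a representation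
`n = k + m` for which `p_k² + h_0`, `p_m² + h_1` and `p_{p_m}² + h_2` are simultaneously prime; and the
same is true, for each of the three numbers separately, with `h_i - p²` instead of `p² + h_i`.

The proof is the second moment method, with the sharp form of the upper bound sieve for prime pairs
and the moments of the singular factor over differences of the starting library
(`Pool.Agent.H197R2.PG`), in a form for vectors of shifts and arbitrary sets of vectors
(`Pool.Agent.Helper29.BE.main`). No distribution property of the primes `p_k`, `p_m`, `p_{p_m}` is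
used; the sets are sparse (about `n` elements up to a power of `n`).
-/

set_option autoImplicit false

open Finset Filter Topology

namespace Pool.Agent.Results.MP_04ff0f_nt.ShiftTriples

/-- The `j`-th prime: `p 1 = 2`, `p 2 = 3`, `p 3 = 5`, and so on. -/
noncomputable def p (j : ℕ) : ℕ := Nat.nth Nat.Prime (j - 1)

/-- For `b = true`: the number `a + h` is prime. For `b = false`: the number `h - a` is positive and
prime. -/
def PrimeShift (b : Bool) (a h : ℕ) : Prop :=
  if b = true then (a + h).Prime else (a < h ∧ (h - a).Prime)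

/-- The triples of even numbers `1 ≤ h i ≤ H` such that for some `k, m ≥ 1` with `k + m = n` the
numbers `p_k² ± h_0`, `p_m² ± h_1`, `p_{p_m}² ± h_2` are prime up to sign, the signs being given by
`s`. -/
def triples (s : Fin 3 → Bool) (n H : ℕ) : Set (Fin 3 → ℕ) :=
  {h | (∀ i, 1 ≤ h i ∧ h i ≤ H ∧ Even (h i)) ∧ ∃ k m : ℕ, 1 ≤ k ∧ 1 ≤ m ∧ k + m = n ∧
    PrimeShift (s 0) (p k ^ 2) (h 0) ∧ PrimeShift (s 1) (p m ^ 2) (h 1) ∧
    PrimeShift (s 2) (p (p m) ^ 2) (h 2)}

open Pool.Agent.Helper29.BE in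
/-- **Triples of shifts.** There are `c > 0` and `n₀` such that for all `n ≥ n₀`, all `H` with
`n ^ 136 ≤ H` and `(log H) ^ 3 ≤ n - 3`, and all signs `s`: for at least `c H³ / (log log n)³` of the
triples of even numbers `h_0, h_1, h_2 ≤ H` there are `k, m ≥ 1` with `k + m = n` for which
`p_k² + h_0` (or `h_0 - p_k²`), `p_m² + h_1` (or `h_1 - p_m²`) and `p_{p_m}² + h_2` (or
`h_2 - p_{p_m}²`) are all prime. -/
theorem result : ∃ c : ℝ, 0 < c ∧ ∃ n₀ : ℕ, ∀ n : ℕ, n₀ ≤ n → ∀ H : ℕ, n ^ 136 ≤ H →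
    Real.log H ^ 3 ≤ n - 3 → ∀ s : Fin 3 → Bool,
    c * H ^ 3 / Real.log (Real.log n) ^ 3 ≤ ((triples s n H).ncard : ℝ) := by
  classical
  obtain ⟨c, hc, n₀, h⟩ := shiftsN 3 8 (by norm_num) (by norm_num)
  have t2 : Tendsto (fun N : ℕ => N ^ 2) atTop atTop := tendsto_pow_atTop (by norm_num)
  obtain ⟨n₁, hn₁⟩ := eventually_atTop.1 (P_le_sq.and ((t2.eventually P_le_sq).and
    (eventually_ge_atTop (n₀ + 4))))
  refine ⟨c, hc, n₁, fun n hn H hH hHn s => ?_⟩
  obtain ⟨g1, g2, g3⟩ := hn₁ n hn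
  have hn1 : 1 ≤ n := by omega
  set T : Finset ℕ := Icc 2 (n - 2) with hT
  set a : Fin 3 → ℕ → ℕ :=
    ![fun m => P (n - m) ^ 2, fun m => P m ^ 2, fun m => P (P m) ^ 2] with ha
  have hPm : ∀ m ∈ T, 2 ≤ m ∧ m ≤ n - 2 := fun m hm => mem_Icc.1 hm
  have hTc : (#T : ℝ) = n - 3 := by
    rw [hT, Nat.card_Icc]
    have e1 : n - 2 + 1 - 2 = n - 3 := by omega
    rw [e1, Nat.cast_sub (by omega)]
    norm_num
  have hPn : P n ≤ n ^ 2 := g1
  have hPn2 : P (n ^ 2) ≤ n ^ 4 := by
    calc P (n ^ 2) ≤ (n ^ 2) ^ 2 := g2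
      _ = n ^ 4 := by ring
  have hsq : ∀ u v : ℕ, u ^ 2 = v ^ 2 → u = v := fun u v h => Nat.pow_left_injective (by norm_num) h
  have h1 := h n (by omega) H (by norm_num; exact hH) T a s (by
    intro i m hm m' hm' hmm
    obtain ⟨hm1, hm2⟩ := hPm m (mem_coe.1 hm)
    obtain ⟨hm1', hm2'⟩ := hPm m' (mem_coe.1 hm')
    fin_cases i
    · have e1 := hsq _ _ hmm
      have e2 := P_inj (by omega) (by omega) e1
      omega
    · have e1 := hsq _ _ hmm
      exact P_inj (by omega) (by omega) e1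
    · have e1 := hsq _ _ hmm
      have k1 := (P_prime m).pos
      have k2 := (P_prime m').pos
      have e2 := P_inj (by omega) (by omega) e1
      exact P_inj (by omega) (by omega) e2) (by
    intro i m hm
    obtain ⟨hm1, hm2⟩ := hPm m hm
    fin_cases i
    · change Odd (P (n - m) ^ 2) ∧ P (n - m) ^ 2 ≤ n ^ 8
      refine ⟨(Nat.odd_iff.2 (P_odd (by omega)).2).pow, ?_⟩
      calc P (n - m) ^ 2 ≤ (n ^ 2) ^ 2 :=
            Nat.pow_le_pow_left ((P_mono (by omega)).trans hPn) 2
        _ = n ^ 4 := by ring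
        _ ≤ n ^ 8 := Nat.pow_le_pow_right hn1 (by norm_num)
    · change Odd (P m ^ 2) ∧ P m ^ 2 ≤ n ^ 8
      refine ⟨(Nat.odd_iff.2 (P_odd (by omega)).2).pow, ?_⟩
      calc P m ^ 2 ≤ (n ^ 2) ^ 2 :=
            Nat.pow_le_pow_left ((P_mono (by omega)).trans hPn) 2
        _ = n ^ 4 := by ring
        _ ≤ n ^ 8 := Nat.pow_le_pow_right hn1 (by norm_num)
    · change Odd (P (P m) ^ 2) ∧ P (P m) ^ 2 ≤ n ^ 8
      have k1 := (P_odd hm1).1
      refine ⟨(Nat.odd_iff.2 (P_odd (by omega)).2).pow, ?_⟩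
      calc P (P m) ^ 2 ≤ (n ^ 4) ^ 2 := Nat.pow_le_pow_left
            ((P_mono ((P_mono (by omega)).trans hPn)).trans hPn2) 2
        _ = n ^ 8 := by ring) (by rw [hTc]; exact hHn)
  refine h1.trans ?_
  apply Nat.cast_le.2
  apply card_le
  intro h m hm hp
  obtain ⟨hm1, hm2⟩ := hPm m hm
  exact ⟨n - m, m, by omega, by omega, by omega, hp 0, hp 1, hp 2⟩

end Pool.Agent.Results.MP_04ff0f_nt.ShiftTriples
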